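import Pool.Agent.Helper95_DC.Defs

/-!
# Module KAZ: the relations imply the Kazhdan property
-/

set_option autoImplicit false

open scoped commutatorElement
open Finset Filter Topology
open Pool.Agent.Helper95_DC

namespace Pool.Agent.Helper43_DC

section

variable {G : Type} [Group G] {H : Type} [NormedAddCommGroup H] [InnerProductSpace ℝ H]
  (ρ : G →* Module.End ℝ H)

lemma inner_inv (hρ : ∀ g v, ‖ρ g v‖ = ‖v‖) (g : G) (u v : H) :
    inner ℝ (ρ g u) (ρ g v) = inner ℝ u v := by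
  let L : H →ₗᵢ[ℝ] H := ⟨ρ g, hρ g⟩
  exact L.inner_map_map u v

lemma rho_mul (g h : G) (v : H) : ρ (g * h) v = ρ g (ρ h v) := by
  rw [map_mul]; rfl

lemma rho_one (v : H) : ρ 1 v = v := by
  rw [map_one]; rfl

/-- the average over the powers of `y` -/
noncomputable def avg (y : G) : H →ₗ[ℝ] H := (29 : ℝ)⁻¹ • ∑ k ∈ range 29, ρ (y ^ k)

lemma avg_apply (y : G) (v : H) : avg ρ y v = (29 : ℝ)⁻¹ • ∑ k ∈ range 29, ρ (y ^ k) v := by
  simp [avg]

lemma rho_avg {y : G} (hy : y ^ 29 = 1) (v : H) : ρ y (avg ρ y v) = avg ρ y v := by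
  rw [avg_apply, map_smul, map_sum]
  congr 1
  have h1 : ∀ k, ρ y (ρ (y ^ k) v) = ρ (y ^ (k + 1)) v := by
    intro k
    rw [pow_succ', rho_mul]
  rw [Finset.sum_congr rfl fun k _ => h1 k]
  have h2 := Finset.sum_range_succ' (fun k => ρ (y ^ k) v) 29
  have h3 := Finset.sum_range_succ (fun k => ρ (y ^ k) v) 29
  rw [h3] at h2
  rw [hy] at h2
  simp only [pow_zero] at h2
  exact (add_right_cancel h2).symm

lemma rho_pow_avg {y : G} (hy : y ^ 29 = 1) (m : ℕ) (v : H) :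
    ρ (y ^ m) (avg ρ y v) = avg ρ y v := by
  induction m with
  | zero => rw [pow_zero, rho_one]
  | succ m ih => rw [pow_succ, rho_mul, rho_avg ρ hy, ih]

lemma rho_pow_fixed {y : G} {u : H} (hu : ρ y u = u) (m : ℕ) : ρ (y ^ m) u = u := by
  induction m with
  | zero => rw [pow_zero, rho_one]
  | succ m ih => rw [pow_succ, rho_mul, hu, ih]

lemma avg_fixed {y : G} {u : H} (hu : ρ y u = u) : avg ρ y u = u := by
  rw [avg_apply, Finset.sum_congr rfl fun k _ => rho_pow_fixed ρ hu k]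
  rw [Finset.sum_const, card_range, ← Nat.cast_smul_eq_nsmul ℝ, smul_smul]
  norm_num

lemma avg_avg {y : G} (hy : y ^ 29 = 1) (v : H) : avg ρ y (avg ρ y v) = avg ρ y v :=
  avg_fixed ρ (rho_avg ρ hy v)

lemma inner_avg_left (hρ : ∀ g v, ‖ρ g v‖ = ‖v‖) {y : G} (hy : y ^ 29 = 1) (u v : H) :
    inner ℝ (avg ρ y u) (avg ρ y v) = inner ℝ (avg ρ y u) v := by
  conv_lhs => rw [avg_apply ρ y v]
  rw [inner_smul_right, inner_sum]
  have h1 : ∀ k ∈ range 29, inner ℝ (avg ρ y u) (ρ (y ^ k) v) = inner ℝ (avg ρ y u) v := by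
    intro k _
    conv_lhs => rw [← rho_pow_avg ρ hy k u]
    exact inner_inv ρ hρ _ _ _
  rw [Finset.sum_congr rfl h1, Finset.sum_const, card_range]
  simp

lemma avg_symm (hρ : ∀ g v, ‖ρ g v‖ = ‖v‖) {y : G} (hy : y ^ 29 = 1) (u v : H) :
    inner ℝ (avg ρ y u) v = inner ℝ u (avg ρ y v) := by
  rw [← inner_avg_left ρ hρ hy, real_inner_comm, inner_avg_left ρ hρ hy, real_inner_comm]

lemma inner_avg_self (hρ : ∀ g v, ‖ρ g v‖ = ‖v‖) {y : G} (hy : y ^ 29 = 1) (u : H) :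
    inner ℝ (avg ρ y u) u = ‖avg ρ y u‖ ^ 2 := by
  rw [← inner_avg_left ρ hρ hy, real_inner_self_eq_norm_sq]

lemma avg_comm {g y : G} (h : Commute g y) (v : H) : avg ρ y (ρ g v) = ρ g (avg ρ y v) := by
  rw [avg_apply, avg_apply, map_smul, map_sum]
  congr 1
  refine Finset.sum_congr rfl fun k _ => ?_
  rw [← rho_mul, ← rho_mul, (h.pow_right k).eq]

lemma avg_avg_comm {y z : G} (h : Commute y z) (v : H) :
    avg ρ z (avg ρ y v) = avg ρ y (avg ρ z v) := by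
  rw [avg_apply ρ y v, map_smul, map_sum, avg_apply ρ y (avg ρ z v)]
  congr 1
  refine Finset.sum_congr rfl fun k _ => ?_
  exact avg_comm ρ (h.pow_left k) v

end

/-! ### group computations -/

section

variable {G : Type} [Group G] {a y z : G}

lemma conj_pow_aux (hz : a * y = z * y * a) (hza : Commute z a) (k : ℕ) :
    a ^ k * y = z ^ k * y * a ^ k := by
  induction k with
  | zero => simp
  | succ k ih =>
    calc a ^ (k + 1) * y = a * (a ^ k * y) := by rw [pow_succ']; group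
      _ = a * (z ^ k * y * a ^ k) := by rw [ih]
      _ = (a * z ^ k) * y * a ^ k := by group
      _ = (z ^ k * a) * y * a ^ k := by rw [(hza.pow_left k).eq]
      _ = z ^ k * (a * y) * a ^ k := by group
      _ = z ^ k * (z * y * a) * a ^ k := by rw [hz]
      _ = z ^ (k + 1) * y * a ^ (k + 1) := by rw [pow_succ z, pow_succ' a]; group

lemma conj_pow (hz : a * y = z * y * a) (hza : Commute z a) (hzy : Commute z y) (k m : ℕ) :
    a ^ k * y ^ m = z ^ (k * m) * y ^ m * a ^ k := by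
  induction m with
  | zero => simp
  | succ m ih =>
    calc a ^ k * y ^ (m + 1) = (a ^ k * y ^ m) * y := by rw [pow_succ]; group
      _ = (z ^ (k * m) * y ^ m * a ^ k) * y := by rw [ih]
      _ = z ^ (k * m) * y ^ m * (a ^ k * y) := by group
      _ = z ^ (k * m) * y ^ m * (z ^ k * y * a ^ k) := by rw [conj_pow_aux hz hza]
      _ = z ^ (k * m) * (y ^ m * z ^ k) * y * a ^ k := by group
      _ = z ^ (k * m) * (z ^ k * y ^ m) * y * a ^ k := by
        rw [((hzy.pow_left k).pow_right m).eq]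
      _ = z ^ (k * (m + 1)) * y ^ (m + 1) * a ^ k := by
        rw [mul_add, mul_one, pow_add, pow_succ y]; group

lemma z_order (hz : a * y = z * y * a) (hza : Commute z a) (ha : a ^ 29 = 1) : z ^ 29 = 1 := by
  have h := conj_pow_aux hz hza 29
  rw [ha, one_mul, mul_one] at h
  exact (mul_eq_right.1 h.symm)

end

/-! ### the angle between the fixed spaces -/

section

variable {G : Type} [Group G] {H : Type} [NormedAddCommGroup H] [InnerProductSpace ℝ H]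
  (ρ : G →* Module.End ℝ H) {a y z : G}

lemma angle_zero (hρ : ∀ g v, ‖ρ g v‖ = ‖v‖) (ha : a ^ 29 = 1)
    (hz : a * y = z * y * a) (hza : Commute z a) (hzy : Commute z y)
    {u : H} (hu : ρ a u = u) (hzu : avg ρ z u = 0) {m : ℕ} (hm0 : 0 < m) (hm : m < 29) :
    inner ℝ (ρ (y ^ m) u) u = 0 := by
  have hz29 : z ^ 29 = 1 := z_order hz hza ha
  set u' := ρ (y ^ m) u with hu'
  have h1 : ∀ k ∈ range 29, inner ℝ (ρ ((z ^ m) ^ k) u') u = inner ℝ u' u := by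
    intro k _
    rw [← inner_inv ρ hρ (a ^ k) u' u, rho_pow_fixed ρ hu k, hu', ← rho_mul ρ (a ^ k),
      conj_pow hz hza hzy, rho_mul, rho_pow_fixed ρ hu k, rho_mul, ← pow_mul, mul_comm m k]
  have hzm : (z ^ m) ^ 29 = 1 := by rw [← pow_mul, mul_comm, pow_mul, hz29, one_pow]
  have h2 : inner ℝ (avg ρ (z ^ m) u') u = inner ℝ u' u := by
    rw [avg_apply, inner_smul_left, sum_inner, Finset.sum_congr rfl h1, Finset.sum_const,
      card_range]
    simp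
  -- the average is fixed by `z`
  obtain ⟨m', hm'⟩ : ∃ m', m * m' % 29 = 1 := by
    have hc : Nat.Coprime m 29 := by
      rw [Nat.coprime_comm]
      exact (Nat.Prime.coprime_iff_not_dvd (by norm_num)).2 (Nat.not_dvd_of_pos_of_lt hm0 hm)
    obtain ⟨m', h⟩ := Nat.exists_mul_mod_eq_one_of_coprime hc (by norm_num)
    exact ⟨m', h.2⟩
  have h3 : z = (z ^ m) ^ m' := by
    rw [← pow_mul, ← Nat.div_add_mod (m * m') 29, hm', pow_add, pow_mul, hz29, one_pow, one_mul,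
      pow_one]
  have h4 : ρ z (avg ρ (z ^ m) u') = avg ρ (z ^ m) u' := by
    have h5 := rho_pow_avg ρ hzm m' u'
    rwa [← h3] at h5
  rw [← h2, ← avg_fixed ρ h4, avg_symm ρ hρ hz29, hzu, inner_zero_right]

lemma norm_avg_of_fixed (hρ : ∀ g v, ‖ρ g v‖ = ‖v‖) (ha : a ^ 29 = 1) (hy : y ^ 29 = 1)
    (hz : a * y = z * y * a) (hza : Commute z a) (hzy : Commute z y)
    {u : H} (hu : ρ a u = u) (hzu : avg ρ z u = 0) :
    ‖avg ρ y u‖ ^ 2 = (29 : ℝ)⁻¹ * ‖u‖ ^ 2 := by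
  rw [← inner_avg_self ρ hρ hy, avg_apply, inner_smul_left, sum_inner]
  congr 1
  rw [Finset.sum_eq_single 0]
  · rw [pow_zero, rho_one, real_inner_self_eq_norm_sq]
  · intro m hm hm0
    exact angle_zero ρ hρ ha hz hza hzy hu hzu (Nat.pos_of_ne_zero hm0) (mem_range.1 hm)
  · simp

/-- the complementary projection -/
noncomputable def Qp (y : G) (v : H) : H := v - avg ρ y v

lemma inner_Qp (hρ : ∀ g v, ‖ρ g v‖ = ‖v‖) (hy : y ^ 29 = 1) (u v : H) :
    inner ℝ (Qp ρ y u) v = inner ℝ (Qp ρ y u) (Qp ρ y v) := by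
  unfold Qp
  rw [inner_sub_right (u - avg ρ y u)]
  have : inner ℝ (u - avg ρ y u) (avg ρ y v) = 0 := by
    rw [inner_sub_left, inner_avg_left ρ hρ hy, avg_symm ρ hρ hy, sub_self]
  rw [this, sub_zero]

/-- the inequality on the fixed space of `z` -/
lemma pair_fixed (hρ : ∀ g v, ‖ρ g v‖ = ‖v‖) (ha : a ^ 29 = 1) (hy : y ^ 29 = 1)
    (hz : a * y = z * y * a) (hza : Commute z a) (hzy : Commute z y)
    {u : H} (hu : ρ z u = u) : 0 ≤ inner ℝ (Qp ρ a u) (Qp ρ y u) := by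
  have h1 : ∀ k m : ℕ, ρ (a ^ k) (ρ (y ^ m) u) = ρ (y ^ m) (ρ (a ^ k) u) := by
    intro k m
    have e1 : a ^ k * y ^ m = y ^ m * (a ^ k * z ^ (k * m)) := by
      rw [conj_pow hz hza hzy, ((hza.pow_left (k * m)).pow_right k).eq.symm, ← mul_assoc,
        ((hzy.pow_left (k * m)).pow_right m).eq]
    rw [← rho_mul, e1, rho_mul, rho_mul, rho_pow_fixed ρ hu]
  have h2 : ∀ k : ℕ, ρ (a ^ k) (avg ρ y u) = avg ρ y (ρ (a ^ k) u) := by
    intro k
    rw [avg_apply, avg_apply, map_smul, map_sum, Finset.sum_congr rfl fun m _ => h1 k m]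
  have hcomm : avg ρ a (avg ρ y u) = avg ρ y (avg ρ a u) := by
    rw [avg_apply ρ a u, map_smul, map_sum, avg_apply ρ a (avg ρ y u),
      Finset.sum_congr rfl fun k _ => h2 k]
  -- `Q_a Q_y = Q_y Q_a` on `u`
  have hQ : Qp ρ a (Qp ρ y u) = Qp ρ y (Qp ρ a u) := by
    unfold Qp
    simp only [map_sub, hcomm]
    abel
  have e : inner ℝ (Qp ρ a u) (Qp ρ y u) = inner ℝ (Qp ρ a (Qp ρ y u)) (Qp ρ a (Qp ρ y u)) := by
    rw [← inner_Qp ρ hρ ha (Qp ρ y u) (Qp ρ y u), hQ, inner_Qp ρ hρ hy (Qp ρ a u) (Qp ρ y u)]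
    rw [show Qp ρ y (Qp ρ y u) = Qp ρ y u by
      unfold Qp; simp only [map_sub, avg_avg ρ hy]; abel]
    rw [real_inner_comm, inner_Qp ρ hρ hy u (Qp ρ a u), real_inner_comm]
  rw [e]
  exact real_inner_self_nonneg

/-- the inequality on the orthogonal complement of the fixed space of `z` -/
lemma pair_perp (hρ : ∀ g v, ‖ρ g v‖ = ‖v‖) (ha : a ^ 29 = 1) (hy : y ^ 29 = 1)
    (hz : a * y = z * y * a) (hza : Commute z a) (hzy : Commute z y)
    {e : ℝ} (he0 : 0 ≤ e) (he1 : e ≤ 1) (he : e ^ 2 = (29 : ℝ)⁻¹)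
    {u : H} (hu : avg ρ z u = 0) :
    0 ≤ 2 * inner ℝ (Qp ρ a u) (Qp ρ y u) + e * (‖Qp ρ a u‖ ^ 2 + ‖Qp ρ y u‖ ^ 2) := by
  set Pa := avg ρ a u with hPa
  set Py := avg ρ y u with hPy
  have h1 : inner ℝ Pa u = ‖Pa‖ ^ 2 := inner_avg_self ρ hρ ha u
  have h2 : inner ℝ Py u = ‖Py‖ ^ 2 := inner_avg_self ρ hρ hy u
  have h3 : ‖avg ρ y Pa‖ = e * ‖Pa‖ := by
    have h4 := norm_avg_of_fixed ρ hρ ha hy hz hza hzy (u := Pa) (rho_avg ρ ha u)
      (by rw [hPa, avg_avg_comm ρ hza.symm, hu, map_zero])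
    rw [← he, ← mul_pow] at h4
    exact (pow_left_inj₀ (norm_nonneg _) (by positivity) (by norm_num)).1 h4
  have h4 : |inner ℝ Pa Py| ≤ e * ‖Pa‖ * ‖Py‖ := by
    have h5 : inner ℝ Pa Py = inner ℝ (avg ρ y Pa) Py := by
      rw [hPy, ← avg_symm ρ hρ hy, ← inner_avg_left ρ hρ hy Pa u]
    rw [h5, ← h3]
    exact abs_real_inner_le_norm _ _
  have h5 := abs_le.1 h4
  -- expand
  have e1 : ‖Qp ρ a u‖ ^ 2 = ‖u‖ ^ 2 - ‖Pa‖ ^ 2 := by
    unfold Qp
    rw [← hPa, norm_sub_sq_real, real_inner_comm, h1]; ring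
  have e2 : ‖Qp ρ y u‖ ^ 2 = ‖u‖ ^ 2 - ‖Py‖ ^ 2 := by
    unfold Qp
    rw [← hPy, norm_sub_sq_real, real_inner_comm, h2]; ring
  have e3 : inner ℝ (Qp ρ a u) (Qp ρ y u) = ‖u‖ ^ 2 - ‖Pa‖ ^ 2 - ‖Py‖ ^ 2 + inner ℝ Pa Py := by
    unfold Qp
    rw [← hPa, ← hPy, inner_sub_left, inner_sub_right, inner_sub_right,
      real_inner_self_eq_norm_sq, h1, real_inner_comm, h2]
    ring
  rw [e1, e2, e3]
  set t := inner ℝ Pa Py with ht
  set p := ‖Pa‖
  set q := ‖Py‖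
  set N := ‖u‖
  -- `S = P_a + P_y`
  have s1 : ‖Pa + Py‖ ^ 2 = p ^ 2 + q ^ 2 + 2 * t := by
    rw [norm_add_sq_real]; ring
  have s2 : inner ℝ (Pa + Py) u = p ^ 2 + q ^ 2 := by
    rw [inner_add_left, h1, h2]
  have s3 : (p ^ 2 + q ^ 2) ^ 2 ≤ (p ^ 2 + q ^ 2 + 2 * t) * N ^ 2 := by
    rw [← s1, ← s2, ← mul_pow]
    have := abs_real_inner_le_norm (Pa + Py) u
    calc (inner ℝ (Pa + Py) u) ^ 2 = |inner ℝ (Pa + Py) u| ^ 2 := (sq_abs _).symm
      _ ≤ _ := pow_le_pow_left₀ (abs_nonneg _) this 2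
  have s4 : 0 ≤ (1 + e) ^ 2 * N ^ 2 - 2 * (1 + e) * (p ^ 2 + q ^ 2) + (p ^ 2 + q ^ 2 + 2 * t) := by
    have h6 : ‖(1 + e) • u - (Pa + Py)‖ ^ 2 = (1 + e) ^ 2 * N ^ 2 -
        2 * (1 + e) * (p ^ 2 + q ^ 2) + (p ^ 2 + q ^ 2 + 2 * t) := by
      rw [norm_sub_sq_real, s1, norm_smul, inner_smul_left, real_inner_comm, s2, mul_pow]
      simp only [Real.norm_eq_abs, sq_abs, conj_trivial]
      ring
    rw [← h6]; positivity
  have s5 : 2 * t ≤ e * (p ^ 2 + q ^ 2) := by nlinarith [sq_nonneg (p - q), h5.2]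
  have s6 : p ^ 2 + q ^ 2 ≤ (1 + e) * N ^ 2 := by
    by_cases h0 : p ^ 2 + q ^ 2 = 0
    · rw [h0]; positivity
    · have h7 : 0 < p ^ 2 + q ^ 2 := lt_of_le_of_ne (by positivity) (Ne.symm h0)
      have h8 : (p ^ 2 + q ^ 2) * (p ^ 2 + q ^ 2) ≤ (p ^ 2 + q ^ 2) * ((1 + e) * N ^ 2) := by
        calc (p ^ 2 + q ^ 2) * (p ^ 2 + q ^ 2) = (p ^ 2 + q ^ 2) ^ 2 := by ring
          _ ≤ (p ^ 2 + q ^ 2 + 2 * t) * N ^ 2 := s3
          _ ≤ (p ^ 2 + q ^ 2 + e * (p ^ 2 + q ^ 2)) * N ^ 2 := by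
            apply mul_le_mul_of_nonneg_right _ (by positivity)
            linarith
          _ = _ := by ring
      exact le_of_mul_le_mul_left h8 h7
  nlinarith [mul_nonneg (sub_nonneg.2 he1) (sub_nonneg.2 s6)]

/-- the inequality for a pair of generators -/
lemma pair_ineq (hρ : ∀ g v, ‖ρ g v‖ = ‖v‖) (ha : a ^ 29 = 1) (hy : y ^ 29 = 1)
    (hz : a * y = z * y * a) (hza : Commute z a) (hzy : Commute z y)
    {e : ℝ} (he0 : 0 ≤ e) (he1 : e ≤ 1) (he : e ^ 2 = (29 : ℝ)⁻¹) (u : H) :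
    0 ≤ 2 * inner ℝ (Qp ρ a u) (Qp ρ y u) + e * (‖Qp ρ a u‖ ^ 2 + ‖Qp ρ y u‖ ^ 2) := by
  have hz29 : z ^ 29 = 1 := z_order hz hza ha
  set u1 := avg ρ z u with hu1
  set u2 := u - avg ρ z u with hu2
  have hu : u = u1 + u2 := by rw [hu1, hu2]; abel
  have f1 : ρ z u1 = u1 := rho_avg ρ hz29 u
  have f2 : avg ρ z u2 = 0 := by rw [hu2, map_sub, avg_avg ρ hz29, sub_self]
  have hQadd : ∀ g : G, Qp ρ g u = Qp ρ g u1 + Qp ρ g u2 := by
    intro g
    rw [hu]; unfold Qp; rw [map_add]; abel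
  have hQ1 : ∀ g : G, Commute z g → avg ρ z (Qp ρ g u1) = Qp ρ g u1 := by
    intro g hg
    unfold Qp
    rw [map_sub, avg_avg_comm ρ hg.symm, avg_fixed ρ f1]
  have hQ2 : ∀ g : G, Commute z g → avg ρ z (Qp ρ g u2) = 0 := by
    intro g hg
    unfold Qp
    rw [map_sub, avg_avg_comm ρ hg.symm, f2, map_zero, sub_zero]
  have horth : ∀ g h : G, Commute z g → Commute z h →
      inner ℝ (Qp ρ g u1) (Qp ρ h u2) = 0 := by
    intro g h hg hh
    rw [← hQ1 g hg, avg_symm ρ hρ hz29, hQ2 h hh, inner_zero_right]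
  have e1 : inner ℝ (Qp ρ a u) (Qp ρ y u) = inner ℝ (Qp ρ a u1) (Qp ρ y u1) +
      inner ℝ (Qp ρ a u2) (Qp ρ y u2) := by
    have h' : inner ℝ (Qp ρ a u2) (Qp ρ y u1) = 0 := by
      rw [real_inner_comm]; exact horth y a hzy hza
    rw [hQadd a, hQadd y, inner_add_left, inner_add_right, inner_add_right,
      horth a y hza hzy, h']
    ring
  have e2 : ∀ g : G, Commute z g → ‖Qp ρ g u‖ ^ 2 = ‖Qp ρ g u1‖ ^ 2 + ‖Qp ρ g u2‖ ^ 2 := by
    intro g hg
    rw [hQadd g, norm_add_sq_real, horth g g hg hg]; ring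
  rw [e1, e2 a hza, e2 y hzy]
  have g1 := pair_fixed ρ hρ ha hy hz hza hzy f1
  have g2 := pair_perp ρ hρ ha hy hz hza hzy he0 he1 he f2
  have g3 : 0 ≤ e * (‖Qp ρ a u1‖ ^ 2 + ‖Qp ρ y u1‖ ^ 2) := by positivity
  linarith

end

/-! ### the Laplacian -/

section

variable {G : Type} [Group G] {H : Type} [NormedAddCommGroup H] [InnerProductSpace ℝ H]
  (ρ : G →* Module.End ℝ H) (x : Fin 6 → G)

lemma norm_Qp_le (hρ : ∀ g v, ‖ρ g v‖ = ‖v‖) {y : G} (hy : y ^ 29 = 1) (u : H) :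
    ‖Qp ρ y u‖ ≤ ‖u‖ := by
  have h1 := inner_Qp ρ hρ hy u u
  rw [real_inner_self_eq_norm_sq] at h1
  have h2 := real_inner_le_norm (Qp ρ y u) u
  rw [h1] at h2
  by_contra h
  push Not at h
  have h3 : 0 ≤ ‖u‖ := norm_nonneg u
  nlinarith

/-- the Laplacian -/
noncomputable def lap : H →ₗ[ℝ] H := ∑ i, (LinearMap.id - avg ρ (x i))

/-- its energy -/
noncomputable def en (v : H) : ℝ := ∑ i, ‖Qp ρ (x i) v‖ ^ 2

lemma lap_apply (v : H) : lap ρ x v = ∑ i, Qp ρ (x i) v := by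
  simp [lap, Qp]

lemma en_nonneg (v : H) : 0 ≤ en ρ x v := Finset.sum_nonneg fun _ _ => by positivity

variable (hρ : ∀ g v, ‖ρ g v‖ = ‖v‖) (hx : ∀ i, x i ^ 29 = 1)
include hρ hx

lemma inner_lap (v : H) : inner ℝ (lap ρ x v) v = en ρ x v := by
  rw [lap_apply, sum_inner]
  refine Finset.sum_congr rfl fun i _ => ?_
  rw [inner_Qp ρ hρ (hx i), real_inner_self_eq_norm_sq]

lemma lap_symm (u v : H) : inner ℝ (lap ρ x u) v = inner ℝ u (lap ρ x v) := by
  rw [lap_apply, lap_apply, sum_inner, inner_sum]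
  refine Finset.sum_congr rfl fun i _ => ?_
  rw [inner_Qp ρ hρ (hx i), real_inner_comm, ← inner_Qp ρ hρ (hx i), real_inner_comm]

lemma en_le (v : H) : en ρ x v ≤ 6 * ‖v‖ ^ 2 := by
  unfold en
  calc ∑ i, ‖Qp ρ (x i) v‖ ^ 2 ≤ ∑ _i : Fin 6, ‖v‖ ^ 2 :=
        Finset.sum_le_sum fun i _ => pow_le_pow_left₀ (norm_nonneg _) (norm_Qp_le ρ hρ (hx i) v) 2
    _ = _ := by simp

omit hρ hx in
lemma norm_lap_le (v : H) : ‖lap ρ x v‖ ^ 2 ≤ 6 * en ρ x v := by
  rw [lap_apply]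
  calc ‖∑ i, Qp ρ (x i) v‖ ^ 2 ≤ (∑ i, ‖Qp ρ (x i) v‖) ^ 2 :=
        pow_le_pow_left₀ (norm_nonneg _) (norm_sum_le _ _) 2
    _ ≤ (Finset.univ : Finset (Fin 6)).card * ∑ i, ‖Qp ρ (x i) v‖ ^ 2 :=
        sq_sum_le_card_mul_sum_sq
    _ = _ := by simp [en]

lemma lap_gap (hrel : ∀ i j, ⁅⁅x i, x j⁆, x i⁆ = 1) (hrel' : ∀ i j, ⁅⁅x i, x j⁆, x j⁆ = 1)
    {e : ℝ} (he0 : 0 ≤ e) (he1 : e ≤ 1) (he : e ^ 2 = (29 : ℝ)⁻¹) (v : H) :
    (1 - 5 * e) * en ρ x v ≤ ‖lap ρ x v‖ ^ 2 := by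
  have hp : ∀ i j, 0 ≤ 2 * inner ℝ (Qp ρ (x i) v) (Qp ρ (x j) v) +
      e * (‖Qp ρ (x i) v‖ ^ 2 + ‖Qp ρ (x j) v‖ ^ 2) := by
    intro i j
    refine pair_ineq ρ hρ (hx i) (hx j) (z := ⁅x i, x j⁆) ?_ ?_ ?_ he0 he1 he v
    · rw [commutatorElement_def]; group
    · exact commutatorElement_eq_one_iff_commute.1 (hrel i j)
    · exact commutatorElement_eq_one_iff_commute.1 (hrel' i j)
  have hs : ∀ i j, inner ℝ (Qp ρ (x i) v) (Qp ρ (x j) v) =
      inner ℝ (Qp ρ (x j) v) (Qp ρ (x i) v) := fun i j => real_inner_comm _ _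
  have hd : ∀ i, inner ℝ (Qp ρ (x i) v) (Qp ρ (x i) v) = ‖Qp ρ (x i) v‖ ^ 2 :=
    fun i => real_inner_self_eq_norm_sq _
  rw [← real_inner_self_eq_norm_sq, lap_apply, sum_inner]
  simp only [en, Fin.sum_univ_six, inner_add_right, hd]
  rw [hs 1 0, hs 2 0, hs 3 0, hs 4 0, hs 5 0, hs 2 1, hs 3 1, hs 4 1, hs 5 1, hs 3 2, hs 4 2,
    hs 5 2, hs 4 3, hs 5 3, hs 5 4]
  linarith [hp 0 1, hp 0 2, hp 0 3, hp 0 4, hp 0 5, hp 1 2, hp 1 3, hp 1 4, hp 1 5, hp 2 3,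
    hp 2 4, hp 2 5, hp 3 4, hp 3 5, hp 4 5]

/-- one step of the iteration decreases the energy -/
lemma en_step (hrel : ∀ i j, ⁅⁅x i, x j⁆, x i⁆ = 1) (hrel' : ∀ i j, ⁅⁅x i, x j⁆, x j⁆ = 1)
    {e : ℝ} (he0 : 0 ≤ e) (he1 : e ≤ 1) (he : e ^ 2 = (29 : ℝ)⁻¹) (v : H) :
    en ρ x (v - (6 : ℝ)⁻¹ • lap ρ x v) ≤ (1 - (1 - 5 * e) / 6) * en ρ x v := by
  have h1 := lap_gap ρ x hρ hx hrel hrel' he0 he1 he v
  have h2 := en_le ρ x hρ hx (lap ρ x v)
  have h3 : en ρ x (v - (6 : ℝ)⁻¹ • lap ρ x v) = en ρ x v - (1 / 3) * ‖lap ρ x v‖ ^ 2 +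
      (1 / 36) * en ρ x (lap ρ x v) := by
    rw [← inner_lap ρ x hρ hx (v - (6 : ℝ)⁻¹ • lap ρ x v), map_sub, map_smul, inner_sub_left,
      inner_sub_right, inner_sub_right, inner_smul_left, inner_smul_left, inner_smul_right,
      inner_smul_right, inner_lap ρ x hρ hx v, inner_lap ρ x hρ hx (lap ρ x v),
      lap_symm ρ x hρ hx (lap ρ x v) v, real_inner_self_eq_norm_sq]
    simp only [conj_trivial]
    ring
  rw [h3]
  nlinarith

end

theorem kaz : KazStatement := by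
  intro G _ x hgen hrel
  obtain ⟨hx, hr1, hr2⟩ := hrel
  set e : ℝ := (Real.sqrt 29)⁻¹ with hedef
  have hs : (5 : ℝ) < Real.sqrt 29 := by
    rw [Real.lt_sqrt (by norm_num)]; norm_num
  have he0 : 0 ≤ e := by positivity
  have he5 : e < 1 / 5 := by
    rw [hedef, one_div]
    exact inv_strictAnti₀ (by norm_num) hs
  have he1 : e ≤ 1 := by linarith
  have he : e ^ 2 = (29 : ℝ)⁻¹ := by
    rw [hedef, inv_pow, Real.sq_sqrt (by norm_num)]
  set r : ℝ := 1 - (1 - 5 * e) / 6 with hr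
  have hr0 : 0 ≤ r := by rw [hr]; linarith
  have hr1' : r < 1 := by rw [hr]; linarith
  set q : ℝ := Real.sqrt r with hq
  have hq0 : 0 ≤ q := Real.sqrt_nonneg _
  have hq1 : q < 1 := by
    rw [hq, Real.sqrt_lt' one_pos]; simpa using hr1'
  have hqr : q ^ 2 = r := Real.sq_sqrt hr0
  refine ⟨28 / (1 - q), div_nonneg (by norm_num) (by linarith), ?_⟩
  intro S hS H _ _ _ ρ hρ v ε hε hv
  -- the energy of `v` is small
  have hQ : ∀ i, ‖Qp ρ (x i) v‖ ≤ 28 * ε := by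
    intro i
    have hk : ∀ k : ℕ, ‖v - ρ (x i ^ k) v‖ ≤ k * ε := by
      intro k
      induction k with
      | zero => rw [pow_zero, rho_one, sub_self, norm_zero]; simp
      | succ k ih =>
        have h1 : v - ρ (x i ^ (k + 1)) v = (v - ρ (x i ^ k) v) + ρ (x i ^ k) (v - ρ (x i) v) := by
          rw [pow_succ, rho_mul, map_sub]; abel
        rw [h1]
        calc _ ≤ ‖v - ρ (x i ^ k) v‖ + ‖ρ (x i ^ k) (v - ρ (x i) v)‖ := norm_add_le _ _
          _ ≤ k * ε + ε := by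
            rw [hρ]
            refine add_le_add ih ?_
            rw [norm_sub_rev]
            exact hv _ (hS i)
          _ = _ := by push_cast; ring
    have h2 : Qp ρ (x i) v = (29 : ℝ)⁻¹ • ∑ k ∈ range 29, (v - ρ (x i ^ k) v) := by
      unfold Qp
      rw [avg_apply, Finset.sum_sub_distrib, smul_sub, Finset.sum_const, card_range,
        ← Nat.cast_smul_eq_nsmul ℝ, smul_smul]
      norm_num
    rw [h2, norm_smul]
    have h3 : ‖∑ k ∈ range 29, (v - ρ (x i ^ k) v)‖ ≤ ∑ k ∈ range 29, 28 * ε := by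
      refine (norm_sum_le _ _).trans (Finset.sum_le_sum fun k hk' => (hk k).trans ?_)
      have : (k : ℝ) ≤ 28 := by
        have := mem_range.1 hk'
        exact_mod_cast (by omega : k ≤ 28)
      exact mul_le_mul_of_nonneg_right this hε
    rw [Finset.sum_const, card_range, nsmul_eq_mul] at h3
    have h4 : ‖(29 : ℝ)⁻¹‖ = (29 : ℝ)⁻¹ := by norm_num
    rw [h4]
    push_cast at h3
    linarith
  have hE : en ρ x v ≤ 6 * (28 * ε) ^ 2 := by
    unfold en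
    calc ∑ i, ‖Qp ρ (x i) v‖ ^ 2 ≤ ∑ _i : Fin 6, (28 * ε) ^ 2 :=
          Finset.sum_le_sum fun i _ => pow_le_pow_left₀ (norm_nonneg _) (hQ i) 2
      _ = _ := by simp
  -- the iteration
  let T : H → H := fun u => u - (6 : ℝ)⁻¹ • lap ρ x u
  let f : ℕ → H := fun n => T^[n] v
  have hf : ∀ n, f (n + 1) = T (f n) := fun n => Function.iterate_succ_apply' T n v
  have hfE : ∀ n, en ρ x (f n) ≤ r ^ n * en ρ x v := by
    intro n
    induction n with
    | zero => simp [f]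
    | succ n ih =>
      rw [hf]
      calc en ρ x (T (f n)) ≤ r * en ρ x (f n) := en_step ρ x hρ hx hr1 hr2 he0 he1 he (f n)
        _ ≤ r * (r ^ n * en ρ x v) := mul_le_mul_of_nonneg_left ih hr0
        _ = _ := by ring
  have hfE' : ∀ n, en ρ x (f n) ≤ 6 * (q ^ n * (28 * ε)) ^ 2 := by
    intro n
    calc en ρ x (f n) ≤ r ^ n * en ρ x v := hfE n
      _ ≤ r ^ n * (6 * (28 * ε) ^ 2) := mul_le_mul_of_nonneg_left hE (by positivity)
      _ = _ := by rw [← hqr]; ring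
  have hdist : ∀ n, dist (f n) (f (n + 1)) ≤ 28 * ε * q ^ n := by
    intro n
    rw [hf, dist_eq_norm]
    have h1 : f n - T (f n) = (6 : ℝ)⁻¹ • lap ρ x (f n) := by simp [T]
    rw [h1, norm_smul]
    have h2 : ‖lap ρ x (f n)‖ ^ 2 ≤ (6 * (q ^ n * (28 * ε))) ^ 2 := by
      calc _ ≤ 6 * en ρ x (f n) := norm_lap_le ρ x (f n)
        _ ≤ 6 * (6 * (q ^ n * (28 * ε)) ^ 2) := by linarith [hfE' n]
        _ = _ := by ring
    have h3 : ‖lap ρ x (f n)‖ ≤ 6 * (q ^ n * (28 * ε)) :=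
      (pow_le_pow_iff_left₀ (norm_nonneg _) (by positivity) (by norm_num)).1 h2
    have h4 : ‖(6 : ℝ)⁻¹‖ = (6 : ℝ)⁻¹ := by norm_num
    rw [h4]
    linarith
  have hcauchy : CauchySeq f := cauchySeq_of_le_geometric q (28 * ε) hq1 hdist
  obtain ⟨w, hw⟩ := cauchySeq_tendsto_of_complete hcauchy
  have hvw : dist (f 0) w ≤ 28 * ε / (1 - q) :=
    dist_le_of_le_geometric_of_tendsto₀ q (28 * ε) hq1 hdist hw
  refine ⟨w, ?_, ?_⟩
  · -- `w` is invariant
    have hQw : ∀ i, Qp ρ (x i) w = 0 := by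
      intro i
      have h1 : ∀ n, ‖Qp ρ (x i) w‖ ≤ ‖w - f n‖ + 3 * (q ^ n * (28 * ε)) := by
        intro n
        have h2 : Qp ρ (x i) w = Qp ρ (x i) (w - f n) + Qp ρ (x i) (f n) := by
          unfold Qp; rw [map_sub]; abel
        have h3 : ‖Qp ρ (x i) (f n)‖ ^ 2 ≤ en ρ x (f n) := by
          unfold en
          exact Finset.single_le_sum (f := fun i => ‖Qp ρ (x i) (f n)‖ ^ 2)
            (fun _ _ => by positivity) (Finset.mem_univ i)
        have h4 : ‖Qp ρ (x i) (f n)‖ ^ 2 ≤ (3 * (q ^ n * (28 * ε))) ^ 2 := by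
          refine h3.trans ((hfE' n).trans ?_)
          rw [mul_pow 3]
          have : 0 ≤ (q ^ n * (28 * ε)) ^ 2 := by positivity
          linarith
        have h5 : ‖Qp ρ (x i) (f n)‖ ≤ 3 * (q ^ n * (28 * ε)) :=
          (pow_le_pow_iff_left₀ (norm_nonneg _) (by positivity) (by norm_num)).1 h4
        rw [h2]
        exact (norm_add_le _ _).trans (add_le_add (norm_Qp_le ρ hρ (hx i) _) h5)
      have h2 : Tendsto (fun n => ‖w - f n‖ + 3 * (q ^ n * (28 * ε))) atTop (𝓝 0) := by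
        have h3 : Tendsto (fun n => ‖w - f n‖) atTop (𝓝 0) := by
          have := (tendsto_const_nhds (x := w)).sub hw
          rw [sub_self] at this
          simpa using this.norm
        have h4 : Tendsto (fun n => 3 * (q ^ n * (28 * ε))) atTop (𝓝 (3 * (0 * (28 * ε)))) :=
          ((tendsto_pow_atTop_nhds_zero_of_lt_one hq0 hq1).mul_const _).const_mul _
        simpa using h3.add h4
      have h3 : ‖Qp ρ (x i) w‖ ≤ 0 := ge_of_tendsto' h2 h1
      exact norm_le_zero_iff.1 h3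
    have hfix : ∀ i, ρ (x i) w = w := by
      intro i
      have h1 : w = avg ρ (x i) w := by
        have := hQw i
        unfold Qp at this
        exact sub_eq_zero.1 this
      rw [h1]
      exact rho_avg ρ (hx i) w
    let K : Subgroup G :=
      { carrier := {g | ρ g w = w}
        mul_mem' := by
          intro a b ha hb
          show ρ (a * b) w = w
          rw [rho_mul, show ρ b w = w from hb]; exact ha
        one_mem' := rho_one ρ w
        inv_mem' := by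
          intro a ha
          show ρ a⁻¹ w = w
          have h1 : ρ a w = w := ha
          conv_lhs => rw [← h1, ← rho_mul, inv_mul_cancel, rho_one] }
    have hK : K = ⊤ := by
      rw [eq_top_iff, ← hgen, Subgroup.closure_le]
      rintro _ ⟨i, rfl⟩
      exact hfix i
    intro g
    have : g ∈ K := by rw [hK]; trivial
    exact this
  · rw [← dist_eq_norm]
    calc dist v w = dist (f 0) w := rfl
      _ ≤ 28 * ε / (1 - q) := hvw
      _ = _ := by ring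

end Pool.Agent.Helper43_DC
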