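import Pool.Agent.Helper95_DC.Pres

/-!
# Modules TORS and BASE
-/

set_option autoImplicit false

open scoped commutatorElement
open Pool.Agent.Helper95_DC

namespace Pool.Agent.Helper43_DC

/-- MODULE TORS. -/
theorem tors (hB : BasicStatement) (hQ : QuotStatement) : TorsStatement := by
  intro p _ t ht0 ht1 F _ N V Fil b hS g M hMn hMi hNM
  have hp : p.Prime := Fact.out
  obtain ⟨hax, h0, h1, hidx, hunb, hlast⟩ := hB p t ht0 ht1 F N V Fil b hS
  obtain ⟨m, hm⟩ := hlast M hMn hMi hNM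
  obtain ⟨v, hv⟩ := hS.V_index
  have hVn := hS.V_normal
  -- powers of `g` go deep in the filtration
  have hg : ∀ j : ℕ, g ^ p ^ (v + j) ∈ Fil (p ^ j) := by
    intro j
    induction j with
    | zero =>
      rw [add_zero, pow_zero, h1, ← hv]
      exact V.pow_index_mem g
    | succ j ih =>
      have h2 := hax.pow _ _ ih
      rw [← pow_mul] at h2
      have e1 : p ^ (v + j) * p = p ^ (v + (j + 1)) := by rw [← add_assoc, pow_succ]
      have e2 : p * p ^ j = p ^ (j + 1) := by rw [pow_succ, mul_comm]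
      rwa [e1, e2] at h2
  -- choose the exponent
  have hlim : Filter.Tendsto (fun j : ℕ => (V.index : ℝ) * t ^ j) Filter.atTop (nhds 0) := by
    have := (tendsto_pow_atTop_nhds_zero_of_lt_one ht0.le ht1).const_mul (V.index : ℝ)
    simpa using this
  obtain ⟨j, hj1, hj2⟩ := ((hlim.eventually_lt_const hS.pos).and
    (Filter.eventually_ge_atTop m)).exists
  have hjp : j ≤ p ^ j := (Nat.lt_pow_self hp.one_lt).le
  have hsmall : (V.index : ℝ) * t ^ (p ^ j) < b := by
    refine lt_of_le_of_lt ?_ hj1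
    exact mul_le_mul_of_nonneg_left (pow_le_pow_of_le_one ht0.le ht1.le hjp) (by positivity)
  have hts : ∑' _ : Unit, t ^ (p ^ j) = t ^ (p ^ j) := by simp
  have hq := hQ p t ht0 ht1 F N V Fil b hS Unit (fun _ => g ^ p ^ (v + j)) (fun _ => p ^ j)
    (fun _ => hg j) (Summable.of_finite) (by rw [hts]; exact hsmall)
  refine ⟨_, _, _, hq, le_sup_left, ?_, v + j, ?_⟩
  · refine sup_le hNM ?_
    refine Subgroup.normalClosure_le_normal ?_
    rintro _ ⟨_, rfl⟩
    exact hm (hax.anti (hj2.trans hjp) (hg j))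
  · apply (le_sup_right : _ ≤ N ⊔ Subgroup.normalClosure _)
    exact Subgroup.subset_normalClosure ⟨(), rfl⟩

/-- index type of the relators -/
abbrev RI : Type := Fin 6 ⊕ {ij : Fin 6 × Fin 6 // ij.1 ≠ ij.2}

/-- the relators -/
def rel : RI → FreeGroup (Fin 6)
  | Sum.inl i => FreeGroup.of i ^ 29
  | Sum.inr ij => ⁅⁅FreeGroup.of ij.1.1, FreeGroup.of ij.1.2⁆, FreeGroup.of ij.1.2⁆

/-- their degrees -/
def reldeg : RI → ℕ
  | Sum.inl _ => 29
  | Sum.inr _ => 3

lemma sum_rel : ∑ i : RI, (1 / 4 : ℝ) ^ reldeg i = 6 * (1 / 4) ^ 29 + 30 * (1 / 4) ^ 3 := by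
  rw [Fintype.sum_sum_type]
  simp only [reldeg, Finset.sum_const, Finset.card_univ, Fintype.card_fin]
  have : Fintype.card {ij : Fin 6 × Fin 6 // ij.1 ≠ ij.2} = 30 := by decide
  rw [this]
  simp only [nsmul_eq_mul]
  norm_num

/-- MODULE BASE. -/
theorem base : BaseStatement := by
  have hp : Fact (Nat.Prime 29) := ⟨by norm_num⟩
  set N : Subgroup (FreeGroup (Fin 6)) := Subgroup.normalClosure (Set.range rel) with hN
  have hNn : N.Normal := Subgroup.normalClosure_normal
  have hone : ∀ f : FreeGroup (Fin 6), f ∈ D 29 (fun _ : Fin 6 => 1) 1 := by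
    intro f
    rw [D_one (fun _ => one_pos)]
    trivial
  have hrel : ∀ i j : Fin 6, ⁅⁅FreeGroup.of i, FreeGroup.of j⁆, FreeGroup.of j⁆ ∈ N := by
    intro i j
    by_cases hij : i = j
    · subst hij
      rw [commutatorElement_self, commutatorElement_one_left]
      exact N.one_mem
    · exact Subgroup.subset_normalClosure ⟨Sum.inr ⟨(i, j), hij⟩, rfl⟩
  refine ⟨N, fun m => D 29 (fun _ => 1) m ⊔ N, 1 / 2 - (6 * (1 / 4) ^ 29 + 30 * (1 / 4) ^ 3),
    ?_, ?_, ?_, hrel⟩
  · refine ⟨hNn, inferInstance, ⟨0, by simp⟩, ?_, fun _ => le_top, ?_, ?_, ?_⟩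
    · intro m
      infer_instance
    · rw [D_zero]; exact le_sup_left
    · refine ⟨Fin 6, inferInstance, inferInstance, fun _ => 1, MonoidHom.id _, RI, rel, reldeg,
        fun _ => one_pos, ?_, ?_, ?_, Summable.of_finite, ?_⟩
      · intro m
        rw [Subgroup.map_id, top_inf_eq]
      · rw [Subgroup.comap_id]
      · rintro (i | ij)
        · have := pow_mem_D (p := 29) (hone (FreeGroup.of i))
          show FreeGroup.of i ^ 29 ∈ D 29 (fun _ => 1) 29
          simpa using this
        · exact commutator_mem_D (commutator_mem_D (hone _) (hone _)) (hone _)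
      · rw [tsum_fintype, sum_rel]
        simp only [pow_one, Finset.sum_const, Finset.card_univ, Fintype.card_fin, nsmul_eq_mul]
        norm_num
    · norm_num
  · intro i
    exact Subgroup.subset_normalClosure ⟨Sum.inl i, rfl⟩
  · intro i j
    have h1 := hrel j i
    have h2 : ⁅⁅FreeGroup.of i, FreeGroup.of j⁆, FreeGroup.of i⁆ =
        ⁅FreeGroup.of j, FreeGroup.of i⁆⁻¹ *
          ⁅⁅FreeGroup.of j, FreeGroup.of i⁆, FreeGroup.of i⁆⁻¹ *
            ⁅FreeGroup.of j, FreeGroup.of i⁆⁻¹⁻¹ := by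
      simp only [commutatorElement_def]
      group
    rw [h2]
    exact hNn.conj_mem _ (N.inv_mem h1) _

end Pool.Agent.Helper43_DC
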